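import Mathlib

set_option autoImplicit false

namespace Pool.Agent.H.MP_5c36f9_al

open Set Filter Function Cardinal Equiv Topology

universe u

/-- slowly oscillating functions on the finitary ballean -/
def SO {G : Type u} [Group G] (f : G → ℝ) : Prop := ∀ F : Set G, F.Finite → ∀ ε > 0,
  ∃ B : Set G, B.Finite ∧ ∀ x ∉ B, ∀ g ∈ insert 1 F, ∀ h ∈ insert 1 F, |f (g * x) - f (h * x)| < ε

variable {X : Type u}

theorem sh {T U : Set X} (a : T.Infinite) (b : Uᶜ.Infinite) :
    ∃ V ⊆ T, V.Countable ∧ V.Infinite ∧ (V ∪ U)ᶜ.Infinite := by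
  have k : ∀ {S : Set X} (c : S.Infinite), Injective fun n => (c.natEmbedding _ n).1 := fun c =>
    Subtype.val_injective.comp (c.natEmbedding _).injective
  by_cases c : (T \ U).Infinite
  · have i := k c
    refine ⟨range fun n => (c.natEmbedding _ (2 * n)).1, fun _ ⟨n, p⟩ =>
      p ▸ (c.natEmbedding _ _).2.1, countable_range _, infinite_range_of_injective (i.comp
        fun _ _ => by omega), (infinite_range_of_injective (f := fun n => (c.natEmbedding _
          (2 * n + 1)).1) (i.comp fun _ _ => by omega)).mono ?_⟩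
    rintro _ ⟨n, rfl⟩ (⟨m, p⟩ | p)
    · exact absurd (i p) (by omega)
    exact (c.natEmbedding _ _).2.2 p
  have d : (T ∩ U).Infinite := fun f => a ((f.union (not_infinite.1 c)).subset
    (inter_union_sdiff T U).ge)
  exact ⟨range fun n => (d.natEmbedding _ n).1, fun _ ⟨n, p⟩ => p ▸ (d.natEmbedding _ _).2.1,
    countable_range _,
    infinite_range_of_injective (k d), b.mono (compl_subset_compl.2 (union_subset
      (fun _ ⟨n, p⟩ => p ▸ (d.natEmbedding _ _).2.2) Subset.rfl))⟩

def Fix (T : Set X) : Set (Perm X) := {y | ∀ x ∈ T, y x = x}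

theorem big {T : Set X} (a : Tᶜ.Infinite) {B : Set (Perm X)} (b : B.Countable) :
    ∃ g ∈ Fix T, g ∉ B := by
  let ι := (a.natEmbedding _).trans (Embedding.subtype _)
  have : Uncountable (Perm ℕ) := aleph0_lt_mk_iff.1 (by simp [mk_perm_eq_two_power, aleph0_lt_continuum])
  obtain ⟨e, p⟩ := (ne_univ_iff_exists_notMem (Perm.viaEmbeddingHom ι ⁻¹' B)).1 fun e =>
    not_countable_univ (e ▸ b.preimage (Perm.viaEmbeddingHom_injective ι))
  exact ⟨_, fun x p => e.viaEmbedding_apply_of_notMem ι x fun ⟨n, q⟩ =>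
    (a.natEmbedding _ n).2 (q ▸ p :), p⟩

open Classical in
theorem dec [Infinite X] (b : Perm X) :
    ∃ T V : Set X, T.Infinite ∧ V.Infinite ∧ ∃ y ∈ Fix V, y * b ∈ Fix T := by
  obtain ⟨T, -, t0, t1, t2⟩ := sh (X := X) (U := ∅) infinite_univ (by simpa using infinite_univ)
  obtain ⟨S, s1, s0, s2, s3⟩ := sh (t1.image b.injective.injOn) t2
  obtain ⟨V, v1, v0, v2, v3⟩ := sh s3 s3
  have s4 : ∀ x ∈ S, b.symm x ∈ T := fun x p => by
    obtain ⟨y, q, rfl⟩ := s1 p
    simpa using q
  let f : ↥(V ∪ S) ↪ X := ⟨fun x => if x.1 ∈ V then x else b.symm x, fun x y e => by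
    have := fun x y : ↥(V ∪ S) => fun p (q : y.1 ∉ V) (e : x.1 = b.symm y) =>
      v1 p (.inr (.inl (e ▸ s4 _ (y.2.resolve_left q))))
    dsimp only at e
    split_ifs at e with p q q
    exacts [Subtype.ext e, (this x y p q e).elim, (this y x q p e.symm).elim,
      Subtype.ext (b.symm.injective e)]⟩
  have k : ∀ s : Set X, s.Countable → sᶜ.Infinite → #↥sᶜ = #X := fun s p q =>
    (add_eq_right (infinite_iff.1 q.to_subtype) ((le_aleph0_iff_set_countable.2 p).trans
      (infinite_iff.1 q.to_subtype))).symm.trans (mk_sum_compl s)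
  have := (v0.union s0).to_subtype
  obtain ⟨y, hy⟩ := extend_function f (Cardinal.eq.1 ((k _ (v0.union s0) (v3.mono
    (compl_subset_compl.2 (union_subset_union_right V subset_union_left)))).trans (k _
      (countable_range _) (v3.mono (compl_subset_compl.2 fun _ c => by
        obtain ⟨x, p⟩ := c
        by_cases q : x.1 ∈ V
        · exact .inl (p.symm.trans (if_pos q) ▸ q)
        exact .inr (.inr (.inl (p.symm.trans (if_neg q) ▸ s4 _ (x.2.resolve_left q))))))).symm))
  refine ⟨b ⁻¹' S, V, s2.preimage (by simp), v2, y, fun x p => (hy ⟨x, .inl p⟩).trans (if_pos p),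
    fun x p => (hy ⟨b x, .inr p⟩).trans ((if_neg fun q => v1 q (.inl p)).trans (by simp))⟩

theorem main (ψ : Perm X → ℝ) (H : SO ψ) : ∃ c, ∀ O ∈ 𝓝 c, (ψ ⁻¹' O)ᶜ.Finite := by
  cases finite_or_infinite X
  · exact ⟨0, fun _ _ => toFinite _⟩
  have h1 : ∀ g, ∀ ε > 0, {x | ε ≤ |ψ (g * x) - ψ x|}.Finite := fun g ε e =>
    let ⟨B, b, c⟩ := H {g} (finite_singleton g) ε e
    b.subset fun x p => by_contra fun q => not_lt.2 p (by simpa using c x q g (.inr rfl) 1 (.inl rfl))
  have h2 : ∀ g, {x | ψ (g * x) ≠ ψ x}.Countable := fun g =>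
    (countable_iUnion fun n : ℕ => (h1 g _ (Nat.one_div_pos_of_nat (n := n))).countable).mono
      fun x p => mem_iUnion.2 ((exists_nat_one_div_lt (abs_pos.2 (sub_ne_zero.2 p))).imp
        fun _ c => c.le)
  let Gd : Set X → Perm X → ℝ → Prop := fun T b r => {y ∈ Fix T | ψ (y * b) ≠ r}.Countable
  have H : ∀ T : Set X, T.Infinite → Tᶜ.Infinite → ∀ y, ∃ r, Gd T y r := fun T a a' y => by
    have i : (Fix Tᶜ).Infinite := fun f =>
      let ⟨g, p, q⟩ := big (T := Tᶜ) (by simpa using a) f.countable; q p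
    let h := fun n => (i.natEmbedding _ n).1
    have k := countable_iUnion fun n => (h2 (h n)).preimage (mul_left_injective y)
    obtain ⟨v, v1, hv⟩ := big a' k
    refine ⟨ψ (v * y), k.mono fun w p => by_contra fun q => ?_⟩
    have e := half_pos (abs_pos.2 (sub_ne_zero.2 p.2))
    obtain ⟨n, hn⟩ := (((h1 v _ e).union (h1 w _ e)).preimage ((mul_left_injective y).comp
      (Subtype.val_injective.comp (i.natEmbedding _).injective)).injOn).exists_notMem
    have f : ∀ u ∈ Fix T, u * (h n * y) = h n * (u * y) := fun u m => by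
      rw [← mul_assoc, ← mul_assoc, Perm.Disjoint.commute fun x => (em (x ∈ T)).imp (m x)
        ((i.natEmbedding _ n).2 x)]
    simp only [mem_preimage, mem_iUnion, mem_union, mem_ofPred_eq, not_exists, not_not, not_or,
      not_le, comp] at hv q hn
    obtain ⟨a, b⟩ := hn
    rw [f _ v1, hv n, abs_sub_comm] at a
    rw [f _ p.1, q n] at b
    linarith [abs_sub_le (ψ (w * y)) (ψ (h n * y)) (ψ (v * y))]
  have U : ∀ T V b r s, Gd T b r → Gd V b s → (T ∪ V)ᶜ.Infinite → r = s := fun T V b r s p q a => by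
    obtain ⟨x, x1, x2⟩ := big a (p.union q)
    exact (not_not.1 fun c => x2 (.inl ⟨fun y p => x1 y (.inl p), c⟩)).symm.trans
      (not_not.1 fun c => x2 (.inr ⟨fun y p => x1 y (.inr p), c⟩))
  have L : ∀ T y b r, y ∈ Fix T → Gd T b r → Gd T (y * b) r := fun T y b r p q =>
    (q.preimage (mul_left_injective y)).mono fun z c => And.intro (fun x d => by
      simp [p x d, c.1 x d]) (mul_assoc z y b ▸ c.2 :)
  obtain ⟨T, -, -, t1, t2⟩ := sh (X := X) (U := ∅) infinite_univ (by simpa using infinite_univ)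
  rw [union_empty] at t2
  choose r hr using H T t1 t2
  have bd : ∀ b, r b = r 1 := fun b => by
    obtain ⟨A, B, a1, b1, y, y1, y2⟩ := dec b
    obtain ⟨A, a2, -, a3, a4⟩ := sh a1 t2
    obtain ⟨B, b2, -, b3, b4⟩ := sh b1 a4
    obtain ⟨s, hs⟩ := H A a3 (a4.mono (compl_subset_compl.2 subset_union_left)) 1
    obtain ⟨u, hu⟩ := H B b3 (b4.mono (compl_subset_compl.2 subset_union_left)) (y * b * 1)
    have c := L _ y⁻¹ _ _ (fun x p => Perm.inv_eq_iff_eq.2 (y1 x (b2 p)).symm) hu
    rw [mul_one, inv_mul_cancel_left] at c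
    rw [← U _ _ _ _ _ hs (hr 1) a4, ← U _ _ _ _ _ hu (L _ _ _ _ (fun x p => y2 x (a2 p)) hs)
      (b4.mono (compl_subset_compl.2 (union_subset_union_right _ subset_union_left))),
      U _ _ _ _ _ c (hr b) (b4.mono (compl_subset_compl.2
        (union_subset_union_right _ subset_union_right)))]
  refine ⟨r 1, fun O o => by_contra fun n => ?_⟩
  obtain ⟨ε, e, o⟩ := Metric.mem_nhds_iff.1 o
  let z := fun k => (Set.Infinite.natEmbedding _ n k).1
  obtain ⟨v, v1, hv⟩ := big t2 (countable_iUnion fun k => hr (z k))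
  obtain ⟨k, hk⟩ := ((h1 v ε e).preimage (Subtype.val_injective.comp
    (Set.Infinite.natEmbedding _ n).injective).injOn).exists_notMem
  refine (Set.Infinite.natEmbedding _ n k).2 (o (show |ψ (z k) - r 1| < ε from ?_))
  rw [← bd (z k), ← not_not.1 fun c => hv (mem_iUnion.2 ⟨k, v1, c⟩), abs_sub_comm]
  exact not_le.1 hk

end Pool.Agent.H.MP_5c36f9_al
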